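import Pool.Agent.Helper62.BW.Stm

/-! # The residue at the node (`W_Rk`, `W_Qe`) -/

set_option autoImplicit false

open Polynomial Matrix Finset

namespace Pool.Agent.Helper93.BW

open Pool.Agent.Helper62.BM Pool.Agent.Helper62.BW

/-- Summation by parts. -/
theorem sum_parts {A : Type} [CommRing A] (l : A) (T : ℕ → A) (N : ℕ) :
    ∑ m ∈ range N, (l - (m : A)) * (T m - 2 * T (m + 1) + T (m + 2)) =
      l * T 0 - (l + 1) * T 1 - (l - (N : A)) * T N + (l - (N : A) + 1) * T (N + 1) := by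
  induction N with
  | zero => simp
  | succ N ih =>
    rw [sum_range_succ, ih]
    push_cast
    ring

theorem w_qe : W_Qe := by
  intro A _ _ _ g hg F hdeg t₀ x₀ f₁ hF l
  have hcF : ∀ k : ℕ, (F.coeff k).eval t₀ = (F.map (evalRingHom t₀)).coeff k := by
    intro k; rw [coeff_map]; rfl
  have hexp : F.map (evalRingHom t₀) =
      X * (X * f₁) - Polynomial.C (2 * x₀) * (X * f₁) + Polynomial.C (x₀ ^ 2) * f₁ := by
    rw [hF]; simp only [map_mul, map_pow, map_ofNat]; ring
  have hc2 : ∀ k : ℕ, (F.coeff (k + 2)).eval t₀ =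
      f₁.coeff k - 2 * x₀ * f₁.coeff (k + 1) + x₀ ^ 2 * f₁.coeff (k + 2) := by
    intro k
    rw [hcF, hexp]
    simp only [coeff_add, coeff_sub, coeff_C_mul]
    rw [show k + 2 = (k + 1) + 1 from rfl, coeff_X_mul, coeff_X_mul, coeff_X_mul]
  -- the degree of `f₁`
  have hf1 : ∀ k : ℕ, 2 * g ≤ k → f₁.coeff k = 0 := by
    intro k hk
    by_cases h0 : f₁ = 0
    · rw [h0, coeff_zero]
    apply coeff_eq_zero_of_natDegree_lt
    have h1 : (F.map (evalRingHom t₀)).natDegree ≤ 2 * g + 1 := by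
      rw [← hdeg]; exact natDegree_map_le
    rw [hF, Monic.natDegree_mul' ((monic_X_sub_C x₀).pow 2) h0,
      (monic_X_sub_C x₀).natDegree_pow, natDegree_X_sub_C] at h1
    omega
  -- the right side
  have hR : ((X - Polynomial.C x₀) * derivative f₁).coeff (l : ℕ) =
      (l : ℕ) * f₁.coeff l - ((l : ℕ) + 1) * (x₀ * f₁.coeff ((l : ℕ) + 1)) := by
    rw [sub_mul, coeff_sub, coeff_C_mul, coeff_derivative]
    have : (X * derivative f₁).coeff (l : ℕ) = ((l : ℕ) : A) * f₁.coeff l := by
      rcases Nat.eq_zero_or_pos (l : ℕ) with h | h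
      · rw [h]; simp
      · obtain ⟨j, hj⟩ : ∃ j, (l : ℕ) = j + 1 := ⟨(l : ℕ) - 1, by omega⟩
        rw [hj, coeff_X_mul, coeff_derivative]; push_cast; ring
    rw [this]; ring
  have hL : ∀ m : Fin (2 * g), (Q2F (2 * g) F l m).eval t₀ * x₀ ^ (m : ℕ) =
      (fun k : ℕ => (((l : ℕ) : A) - (k : A)) * (f₁.coeff ((l : ℕ) + k) * x₀ ^ k
        - 2 * (f₁.coeff ((l : ℕ) + (k + 1)) * x₀ ^ (k + 1))
        + f₁.coeff ((l : ℕ) + (k + 2)) * x₀ ^ (k + 2))) (m : ℕ) := by
    intro m
    simp only [Q2F, Matrix.of_apply, eval_mul, eval_sub, eval_natCast]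
    rw [hc2 ((l : ℕ) + m)]
    ring_nf
  rw [sum_congr rfl (fun m _ => hL m), Fin.sum_univ_eq_sum_range
    (fun k : ℕ => (((l : ℕ) : A) - (k : A)) * (f₁.coeff ((l : ℕ) + k) * x₀ ^ k
        - 2 * (f₁.coeff ((l : ℕ) + (k + 1)) * x₀ ^ (k + 1))
        + f₁.coeff ((l : ℕ) + (k + 2)) * x₀ ^ (k + 2))) (2 * g)]
  rw [sum_parts (((l : ℕ) : A)) (fun k => f₁.coeff ((l : ℕ) + k) * x₀ ^ k) (2 * g), hR]
  rw [hf1 ((l : ℕ) + 2 * g) (by omega), hf1 ((l : ℕ) + (2 * g + 1)) (by omega)]
  rw [zero_mul, zero_mul, mul_zero, mul_zero, add_zero, sub_zero, add_zero, pow_zero, mul_one,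
    pow_one]
  ring

theorem eval_eval_C {A : Type} [CommRing A] (p : A[X][X]) (x t : A) :
    (p.eval (Polynomial.C x)).eval t = (p.map (evalRingHom t)).eval x := by
  have h := Polynomial.eval₂_at_apply (p := p) (evalRingHom t) (Polynomial.C x)
  rw [eval_map]
  simpa using h.symm

theorem derivative_eval_C {A : Type} [CommRing A] (F : A[X][X]) (x : A) :
    derivative (F.eval (Polynomial.C x)) = (dt F).eval (Polynomial.C x) := by
  have h1 : F.eval (Polynomial.C x) = ∑ i ∈ range (F.natDegree + 1), F.coeff i * Polynomial.C x ^ i :=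
    eval_eq_sum_range _
  have hd : (dt F).natDegree < F.natDegree + 1 := by
    refine Nat.lt_succ_of_le (natDegree_le_iff_coeff_eq_zero.2 fun N hN => ?_)
    rw [coeff_dt, coeff_eq_zero_of_natDegree_lt hN, derivative_zero]
  have h2 : (dt F).eval (Polynomial.C x) =
      ∑ i ∈ range (F.natDegree + 1), (dt F).coeff i * Polynomial.C x ^ i :=
    eval_eq_sum_range' hd _
  rw [h1, h2, derivative_sum]
  refine sum_congr rfl fun i _ => ?_
  rw [coeff_dt, ← Polynomial.C_pow, derivative_mul, derivative_C, mul_zero, add_zero]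

theorem w_rk : W_Rk := by
  intro A _ _ _ g hg F hGen t₀ x₀ f₁ hNode w P S hRel m l
  obtain ⟨hmon, hdeg, -⟩ := hGen
  obtain ⟨hF, hsep, hfx, hdt⟩ := hNode
  obtain ⟨hPd, hSd, hrel⟩ := hRel l
  have h2 : (2 : A) ≠ 0 := two_ne_zero
  have h2X : (2 : A[X]) ≠ 0 := two_ne_zero
  set h : A[X] := X - Polynomial.C x₀ with hh
  have hh0 : h ≠ 0 := X_sub_C_ne_zero x₀
  set e0 : A[X] →+* A := evalRingHom t₀ with he0
  set P₀ := (P l).map e0 with hP₀
  set S₀ := (S l).map e0 with hS₀
  have hF0mon : (h ^ 2 * f₁).Monic := hF ▸ hmon.map e0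
  have hf₁mon : f₁.Monic := Monic.of_mul_monic_left ((monic_X_sub_C x₀).pow 2) hF0mon
  have hhf : (h * f₁).Monic := (monic_X_sub_C x₀).mul hf₁mon
  have hhf0 : h * f₁ ≠ 0 := hhf.ne_zero
  have hdhf : (h * f₁).natDegree = 2 * g := by
    have e1 : (h ^ 2 * f₁).natDegree = 2 * g + 1 := by
      rw [← hF, hmon.natDegree_map, hdeg]
    rw [((monic_X_sub_C x₀).pow 2).natDegree_mul hf₁mon, (monic_X_sub_C x₀).natDegree_pow,
      natDegree_X_sub_C] at e1
    rw [(monic_X_sub_C x₀).natDegree_mul hf₁mon, natDegree_X_sub_C]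
    omega
  have hdh : derivative h = 1 := by rw [hh]; simp
  have hder : (derivative F).map e0 = h * (2 * f₁ + h * derivative f₁) := by
    rw [← derivative_map, hF]
    simp only [derivative_mul, derivative_pow, hdh]
    norm_num
    rw [show (Polynomial.C (2 : A)) = (2 : A[X]) from map_ofNat _ 2]
    ring
  -- the relation at `t₀`
  have hr0 : P₀ * (h * f₁) + S₀ * (2 * f₁ + h * derivative f₁) = 0 := by
    have e1 := congrArg (Polynomial.map e0) hrel
    simp only [Polynomial.map_mul, Polynomial.map_add, Polynomial.map_C, Polynomial.map_ofNat] at e1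
    have e2 : e0 ((X - Polynomial.C t₀) * (2 * w)) = 0 := by
      rw [he0]; simp
    rw [e2, map_zero, zero_mul, zero_mul, hF, hder] at e1
    have e3 : (2 * h) * (P₀ * (h * f₁) + S₀ * (2 * f₁ + h * derivative f₁)) = 0 := by
      rw [← e1]; ring
    exact (mul_eq_zero.1 e3).resolve_left (mul_ne_zero h2X hh0)
  -- `h f₁` divides `S₀`
  have hdvd : h * f₁ ∣ S₀ := by
    set ψ := algebraMap A (FractionRing A) with hψ
    have hinj : Function.Injective ψ := IsFractionRing.injective A (FractionRing A)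
    rw [← Polynomial.map_dvd_map ψ hinj hhf]
    have hmap : h.map ψ = X - Polynomial.C (ψ x₀) := by rw [hh]; simp
    have hc1 : IsCoprime (h.map ψ) (f₁.map ψ) := by
      rw [hmap]
      refine (irreducible_X_sub_C (ψ x₀)).coprime_iff_not_dvd.2 ?_
      rw [dvd_iff_isRoot, IsRoot.def, eval_map_apply]
      exact fun h0 => hfx (hinj (by rw [h0, map_zero]))
    have hc2 : IsCoprime (h.map ψ) ((2 * f₁ + h * derivative f₁).map ψ) := by
      have h3 : (2 * f₁ + h * derivative f₁).map ψ =
          Polynomial.C 2 * f₁.map ψ + (derivative f₁).map ψ * h.map ψ := by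
        simp only [Polynomial.map_add, Polynomial.map_mul, Polynomial.map_ofNat]
        rw [map_ofNat]; ring
      rw [h3]
      refine (IsCoprime.add_mul_right_right ?_ _)
      refine IsCoprime.mul_right ?_ hc1
      exact ⟨0, Polynomial.C 2⁻¹, by
        rw [zero_mul, zero_add, ← Polynomial.C_mul, inv_mul_cancel₀ two_ne_zero, Polynomial.C_1]⟩
    have hc3 : IsCoprime (f₁.map ψ) ((2 * f₁ + h * derivative f₁).map ψ) := by
      have h3 : (2 * f₁ + h * derivative f₁).map ψ =
          h.map ψ * derivative (f₁.map ψ) + 2 * f₁.map ψ := by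
        simp only [Polynomial.map_add, Polynomial.map_mul, Polynomial.map_ofNat, derivative_map]
        ring
      rw [h3]
      refine (IsCoprime.add_mul_right_right ?_ _)
      exact IsCoprime.mul_right hc1.symm hsep
    have hc4 : IsCoprime ((h * f₁).map ψ) ((2 * f₁ + h * derivative f₁).map ψ) := by
      rw [Polynomial.map_mul]; exact IsCoprime.mul_left hc2 hc3
    refine hc4.dvd_of_dvd_mul_right ?_
    rw [← Polynomial.map_mul]
    refine Polynomial.map_dvd ψ ?_
    exact ⟨-P₀, by linear_combination hr0⟩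
  obtain ⟨q, hq⟩ := hdvd
  have hqd : q.natDegree = 0 := by
    by_cases hq0 : q = 0
    · rw [hq0, natDegree_zero]
    have e1 : S₀.natDegree ≤ 2 * g := natDegree_map_le.trans hSd
    rw [hq, hhf.natDegree_mul' hq0, hdhf] at e1
    omega
  obtain ⟨c, hc⟩ : ∃ c : A, q = Polynomial.C c := ⟨q.coeff 0, eq_C_of_natDegree_eq_zero hqd⟩
  rw [hc] at hq
  have hPe : P₀ = -(Polynomial.C c * (2 * f₁ + h * derivative f₁)) := by
    have e1 : (h * f₁) * (P₀ + Polynomial.C c * (2 * f₁ + h * derivative f₁)) = 0 := by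
      rw [hq] at hr0
      linear_combination hr0
    have e2 := (mul_eq_zero.1 e1).resolve_left hhf0
    linear_combination e2
  -- the derivative of the relation at `(x₀, t₀)`
  have hhx : h.eval x₀ = 0 := by rw [hh]; simp
  have hpx : ((P l).eval (Polynomial.C x₀)).eval t₀ = -(c * (2 * f₁.eval x₀)) := by
    rw [eval_eval_C, ← hP₀, hPe]
    simp [hhx]
  have hsx : ((S l).eval (Polynomial.C x₀)).eval t₀ = 0 := by
    rw [eval_eval_C, ← hS₀, hq]
    simp [hhx]
  have hfx0 : (F.eval (Polynomial.C x₀)).eval t₀ = 0 := by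
    rw [eval_eval_C, ← he0, hF]
    simp [hhx]
  have hfx1 : ((derivative F).eval (Polynomial.C x₀)).eval t₀ = 0 := by
    rw [eval_eval_C, ← he0, hder]
    simp [hhx]
  have hkey : ((P l).eval (Polynomial.C x₀)).eval t₀ = w.eval t₀ * x₀ ^ (l : ℕ) := by
    have e1 := congrArg (Polynomial.eval (Polynomial.C x₀)) hrel
    simp only [eval_mul, eval_add, eval_C, eval_pow, eval_X, eval_ofNat] at e1
    have e2 := congrArg (fun z : A[X] => (derivative z).eval t₀) e1
    simp only [derivative_mul, derivative_add, derivative_ofNat, derivative_eval_C, eval_add,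
      eval_mul, eval_ofNat, derivative_sub, derivative_X, derivative_C, eval_sub, eval_X, eval_C,
      eval_zero, eval_one, eval_pow, hsx, hfx0, hfx1] at e2
    have e3 : ((dt F).eval (Polynomial.C x₀)).eval t₀ ≠ 0 := by
      rw [eval_eval_C]; exact hdt
    have e4 : (2 * ((dt F).eval (Polynomial.C x₀)).eval t₀) *
        (((P l).eval (Polynomial.C x₀)).eval t₀ - w.eval t₀ * x₀ ^ (l : ℕ)) = 0 := by
      linear_combination e2
    have e5 := (mul_eq_zero.1 e4).resolve_left (mul_ne_zero h2 e3)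
    exact sub_eq_zero.1 e5
  -- the matrix
  have hM : (Mg P S m l).eval t₀ = -(c * (h * derivative f₁).coeff m) := by
    have e1 : (Mg P S m l).eval t₀ = -((P₀ + 2 * derivative S₀).coeff m) := by
      simp only [Mg, Matrix.of_apply]
      rw [eval_neg, hP₀, hS₀, derivative_map]
      have e2 : (2 * (derivative (S l)).map e0 : A[X]) = (2 * derivative (S l)).map e0 := by
        simp
      rw [e2, ← Polynomial.map_add, coeff_map, he0]
      rfl
    rw [e1, hPe, hq]
    have e3 : -(Polynomial.C c * (2 * f₁ + h * derivative f₁)) +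
        2 * derivative (h * f₁ * Polynomial.C c) = Polynomial.C c * (h * derivative f₁) := by
      simp only [derivative_mul, hdh, derivative_C]
      ring
    rw [e3, coeff_C_mul]
  rw [hM]
  rw [hpx] at hkey
  linear_combination ((h * derivative f₁).coeff m) * hkey

end Pool.Agent.Helper93.BW
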